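import Pool.Agent.Helper90.G2.Defs

/-!
# Project G3 (MP_16b0ee_an): the strict second order bound near `t = 2`, definitions

`Pt δ a c₀ m₀ W` : the functional `W Q p` is comparable with `Vp δ Q p` up to factors `1 ± a δ`, is
superadditive in `Q`, and moving the point costs only `(1 - c₀) er0` (for `Vp` itself it is
`(1 + 32 δ) er0`, and this is sharp). `exists_pt` (file `Exists`): such functionals exist for all small `δ`,
with constants `a, c₀, m₀` not depending on `δ`.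
-/

set_option autoImplicit false

namespace Pool.Agent.Helper90.G3

open MeasureTheory Set
open scoped Real
open Pool.Agent.Helper90.G2 (Vp)

/-- the error term of a move of the point -/
noncomputable def er0 (δ m s : ℝ) : ℝ := δ * (π * s ^ 2 / (4 * m)) * (s / m) ^ (-δ)

/-- functionals with a strict move inequality -/
structure Pt (δ a c₀ m₀ : ℝ) (W : Set ℂ → ℂ → ℝ) : Prop where
  lo : ∀ Q : Set ℂ, MeasurableSet Q → volume Q < ⊤ → ∀ p : ℂ, (1 - a * δ) * Vp δ Q p ≤ W Q p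
  up : ∀ Q : Set ℂ, MeasurableSet Q → volume Q < ⊤ → ∀ p : ℂ, W Q p ≤ (1 + a * δ) * Vp δ Q p
  add : ∀ (N : ℕ) (Q : ℕ → Set ℂ) (X Q' : Set ℂ), (∀ d < N, MeasurableSet (Q d)) →
    MeasurableSet X → MeasurableSet Q' → volume Q' < ⊤ → (∀ d < N, Q d ⊆ Q') → X ⊆ Q' →
    (∀ d < N, ∀ e < N, d ≠ e → Disjoint (Q d) (Q e)) → (∀ d < N, Disjoint X (Q d)) →
    ∀ p : ℂ, W X p + ∑ d ∈ Finset.range N, W (Q d) p ≤ W Q' p
  move : ∀ m s : ℝ, 0 < m → m ≤ m₀ → 0 < s → ∀ Q : Set ℂ, MeasurableSet Q → volume Q < ⊤ →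
    ∀ p p' : ℂ, ‖p' - p‖ ≤ s → W Q p' ≤ Real.exp (δ * m) * W Q p + (1 - c₀) * er0 δ m s

/-- the functional of a box -/
noncomputable def V3 (W : Set ℂ → ℂ → ℝ) (F : ℂ → ℂ) (c ℓ : ℝ) : ℝ :=
  W (F '' G2.Bx c ℓ) (F (G2.zt c ℓ))

end Pool.Agent.Helper90.G3
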