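import Pool.Agent.Helper90.G2.Kids
import Pool.Agent.Helper90.G3.Defs

/-!
# G3-KIDS: a box, its window and its children, for an abstract functional

Copy of `G2.Kids` with `W` instead of `Vp`.
-/

set_option autoImplicit false

namespace Pool.Agent.Helper90.G3

open MeasureTheory Set
open scoped Real
open Pool.Agent.Helper90.G2

variable {F : ℂ → ℂ} {A : ℝ}

/-- the part of `V3` carried by child `d` before the point is moved -/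
noncomputable def Vc3 (W : Set ℂ → ℂ → ℝ) (F : ℂ → ℂ) (c ℓ : ℝ) (N d : ℕ) : ℝ :=
  W (F '' Bx (ch N c ℓ d) (ℓ / N)) (F (zt c ℓ))

/-- the part of `V3` carried by the window -/
noncomputable def Vw3 (W : Set ℂ → ℂ → ℝ) (F : ℂ → ℂ) (c ℓ : ℝ) (N : ℕ) : ℝ :=
  W (F '' Wn c ℓ (1 / N)) (F (zt c ℓ))

theorem Pt.nonneg {δ a c₀ m₀ : ℝ} {W : Set ℂ → ℂ → ℝ} (hW : Pt δ a c₀ m₀ W) (ha : a * δ ≤ 1)
    {Q : Set ℂ} (hQ : MeasurableSet Q) (hv : volume Q < ⊤) (p : ℂ) : 0 ≤ W Q p :=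
  (mul_nonneg (sub_nonneg.2 ha) (vp_nonneg δ Q p)).trans (hW.lo Q hQ hv p)

theorem er0_nonneg {δ m s : ℝ} (h0 : 0 ≤ δ) (hm : 0 ≤ m) (hs : 0 ≤ s) : 0 ≤ er0 δ m s := by
  unfold er0
  have := Real.pi_pos
  positivity

theorem kids_add3 {δ a c₀ m₀ : ℝ} {W : Set ℂ → ℂ → ℝ} (hW : Pt δ a c₀ m₀ W) (hF : Fn F A) {c ℓ : ℝ}
    (hℓ : 0 < ℓ) (hℓ1 : ℓ ≤ 1) {N : ℕ} (hN : 2 ≤ N) :
    Vw3 W F c ℓ N + ∑ d ∈ Finset.range N, Vc3 W F c ℓ N d ≤ V3 W F c ℓ := by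
  have hst := bx_sub_strip (c := c) hℓ1
  exact hW.add N (fun d => F '' Bx (ch N c ℓ d) (ℓ / N)) (F '' Wn c ℓ (1 / N)) (F '' Bx c ℓ)
    (fun d hd => hF.meas (meas_bx _ _) ((bx_child_sub hℓ hN hd).trans hst))
    (hF.meas (meas_wn _ _ _) ((wn_sub hℓ hN).trans hst)) (hF.meas (meas_bx _ _) hst)
    (hF.fin hℓ1 (Subset.refl _)) (fun d hd => image_mono (bx_child_sub hℓ hN hd))
    (image_mono (wn_sub hℓ hN))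
    (fun d hd e he hde => image_disj (hF.inj c) ((bx_child_sub hℓ hN hd).trans hst)
      ((bx_child_sub hℓ hN he).trans hst) (bx_disj hℓ hN hde))
    (fun d hd => image_disj (hF.inj c) ((wn_sub hℓ hN).trans hst)
      ((bx_child_sub hℓ hN hd).trans hst) wn_disj) _

theorem V3_nonneg {δ a c₀ m₀ : ℝ} {W : Set ℂ → ℂ → ℝ} (hW : Pt δ a c₀ m₀ W) (ha : a * δ ≤ 1)
    (hF : Fn F A) {c ℓ : ℝ} (hℓ1 : ℓ ≤ 1) : 0 ≤ V3 W F c ℓ :=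
  hW.nonneg ha (hF.meas (meas_bx _ _) (bx_sub_strip (c := c) hℓ1)) (hF.fin hℓ1 (Subset.refl _)) _

theorem Vc3_nonneg {δ a c₀ m₀ : ℝ} {W : Set ℂ → ℂ → ℝ} (hW : Pt δ a c₀ m₀ W) (ha : a * δ ≤ 1)
    (hF : Fn F A) {c ℓ : ℝ} (hℓ : 0 < ℓ) (hℓ1 : ℓ ≤ 1) {N d : ℕ} (hN : 2 ≤ N) (hd : d < N) :
    0 ≤ Vc3 W F c ℓ N d :=
  hW.nonneg ha (hF.meas (meas_bx _ _) ((bx_child_sub hℓ hN hd).trans (bx_sub_strip (c := c) hℓ1)))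
    (hF.fin hℓ1 (bx_child_sub hℓ hN hd)) _

theorem Vw3_nonneg {δ a c₀ m₀ : ℝ} {W : Set ℂ → ℂ → ℝ} (hW : Pt δ a c₀ m₀ W) (ha : a * δ ≤ 1)
    (hF : Fn F A) {c ℓ : ℝ} (hℓ : 0 < ℓ) (hℓ1 : ℓ ≤ 1) {N : ℕ} (hN : 2 ≤ N) :
    0 ≤ Vw3 W F c ℓ N :=
  hW.nonneg ha (hF.meas (meas_wn _ _ _) ((wn_sub hℓ hN).trans (bx_sub_strip (c := c) hℓ1)))
    (hF.fin hℓ1 (wn_sub hℓ hN)) _

/-- the loss -/
theorem loss3 {δ a c₀ m₀ : ℝ} {W : Set ℂ → ℂ → ℝ} (hW : Pt δ a c₀ m₀ W) (ha : a * δ ≤ 1)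
    (hF : Fn F A) {c ℓ : ℝ} (h0 : 0 < δ) (h1 : δ ≤ 1) (hℓ : 0 < ℓ) (hℓ1 : ℓ ≤ 1) {N : ℕ}
    (hN : 2 ≤ N) :
    (1 - a * δ) * (ar F (Wn c ℓ (1 / N)) *
      (500 * (1 + Real.log N) * √(ar F (Wn c ℓ (1 / N)))) ^ (-δ)) ≤ Vw3 W F c ℓ N := by
  refine (mul_le_mul_of_nonneg_left (hF.loss h0 h1 hℓ hℓ1 hN) (sub_nonneg.2 ha)).trans ?_
  exact hW.lo _ (hF.meas (meas_wn _ _ _) ((wn_sub hℓ hN).trans (bx_sub_strip (c := c) hℓ1)))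
    (hF.fin hℓ1 (wn_sub hℓ hN)) _

/-- moving the point of one child, with any bound `s` of the displacement -/
theorem kids_move3 {δ a c₀ m₀ : ℝ} {W : Set ℂ → ℂ → ℝ} (hW : Pt δ a c₀ m₀ W) (hF : Fn F A)
    {m s c ℓ : ℝ} (hm : 0 < m) (hm1 : m ≤ m₀) (hs : 0 < s) (hℓ : 0 < ℓ) (hℓ1 : ℓ ≤ 1) {N d : ℕ}
    (hN : 2 ≤ N) (hd : d < N) (h : ‖F (zt (ch N c ℓ d) (ℓ / N)) - F (zt c ℓ)‖ ≤ s) :
    V3 W F (ch N c ℓ d) (ℓ / N) ≤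
      Real.exp (δ * m) * Vc3 W F c ℓ N d + (1 - c₀) * er0 δ m s :=
  hW.move m s hm hm1 hs _
    (hF.meas (meas_bx _ _) ((bx_child_sub hℓ hN hd).trans (bx_sub_strip (c := c) hℓ1)))
    (hF.fin hℓ1 (bx_child_sub hℓ hN hd)) _ _ h

end Pool.Agent.Helper90.G3
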