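import Pool.Agent.Helper90.G2.Avg
import Pool.Agent.Helper90.G3.Kids

/-!
# G3-AVG: averaging over translations, for an abstract functional

`words` for `f c ℓ = V3 W F c ℓ ^ (1 + θ)`; `V ≤ 2 V3`, `V3 ≤ 2 V` and `Fn.avg_core`.
-/

set_option autoImplicit false

namespace Pool.Agent.Helper90.G3

open MeasureTheory Set
open scoped Real
open Pool.Agent.Helper90.G2

variable {F : ℂ → ℂ} {A : ℝ}

theorem V_le_V3 {δ a c₀ m₀ : ℝ} {W : Set ℂ → ℂ → ℝ} (hW : Pt δ a c₀ m₀ W) (ha : a * δ ≤ 1 / 100)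
    (hF : Fn F A) {c ℓ : ℝ} (hℓ1 : ℓ ≤ 1) : V F δ c ℓ ≤ 2 * V3 W F c ℓ := by
  have h := hW.lo _ (hF.meas (meas_bx _ _) (bx_sub_strip (c := c) hℓ1))
    (hF.fin (c := c) hℓ1 (Subset.refl _)) (F (zt c ℓ))
  have hv : 0 ≤ V F δ c ℓ := vp_nonneg _ _ _
  unfold V3
  unfold V at hv ⊢
  nlinarith

theorem V3_le_V {δ a c₀ m₀ : ℝ} {W : Set ℂ → ℂ → ℝ} (hW : Pt δ a c₀ m₀ W) (ha : a * δ ≤ 1 / 100)
    (hF : Fn F A) {c ℓ : ℝ} (hℓ1 : ℓ ≤ 1) : V3 W F c ℓ ≤ 2 * V F δ c ℓ := by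
  have h := hW.up _ (hF.meas (meas_bx _ _) (bx_sub_strip (c := c) hℓ1))
    (hF.fin (c := c) hℓ1 (Subset.refl _)) (F (zt c ℓ))
  have hv : 0 ≤ V F δ c ℓ := vp_nonneg _ _ _
  unfold V3
  unfold V at hv ⊢
  nlinarith

theorem avg3 {δ a c₀ m₀ : ℝ} {W : Set ℂ → ℂ → ℝ} (hW : Pt δ a c₀ m₀ W) (ha : a * δ ≤ 1 / 100)
    (hF : Fn F A) (hA : 0 ≤ A) {θ κ c' G : ℝ} {N : ℕ} (h0 : 0 < δ) (h1 : δ ≤ 1 / 4)
    (hθ : 0 ≤ θ) (hθ1 : θ ≤ 1) (hκ : 0 < κ) (hκ1 : κ ≤ 1 / 4) (hc : 0 ≤ c')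
    (hc1 : 3 * κ * c' ≤ 1 / 2) (hN : 2 ≤ κ * N) (hG : 0 ≤ G)
    (h : ∀ c ℓ : ℝ, 0 < ℓ → ℓ ≤ 1 →
      ∑ d ∈ Finset.range N, chi κ c' N d * V3 W F (ch N c ℓ d) (ℓ / N) ^ (1 + θ) ≤
        G * V3 W F c ℓ ^ (1 + θ)) (K : ℕ) :
    ∫ ξ in (0:ℝ)..(2 * π), ‖deriv F ⟨((N ^ K : ℕ) : ℝ)⁻¹, ξ⟩‖ ^ ((2 - δ) * (1 + θ)) ≤
      2 * π * 500000 ^ 2 * (A + 7) ^ 2 *
        (16 * G ^ K * ((N ^ K : ℕ) : ℝ) ^ ((2 - δ) * (1 + θ) - 1) * Real.exp (6 * κ * c' * K)) := by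
  have ha1 : a * δ ≤ 1 := by linarith
  have hN0 : 1 ≤ N := by
    rcases Nat.eq_zero_or_pos N with h | h
    · rw [h] at hN
      norm_num at hN
    · exact h
  have hNK : (1 : ℝ) ≤ ((N ^ K : ℕ) : ℝ) := by exact_mod_cast Nat.one_le_pow _ _ hN0
  have hl1 : (1 : ℝ) / ((N ^ K : ℕ) : ℝ) ≤ 1 := by
    rw [div_le_one (by linarith)]
    exact hNK
  have h2q : (2 : ℝ) ^ (1 + θ) ≤ 4 := by
    calc (2 : ℝ) ^ (1 + θ) ≤ (2 : ℝ) ^ (2 : ℝ) :=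
          Real.rpow_le_rpow_of_exponent_le (by norm_num) (by linarith)
      _ = 4 := by
        rw [Real.rpow_two]
        norm_num
  have key : ∀ ξ : ℝ, ∑ d ∈ Finset.range (N ^ K), chK κ c' N K d *
        V F δ (ch (N ^ K) ξ 1 d) (1 / ((N ^ K : ℕ) : ℝ)) ^ (1 + θ) ≤
      16 * G ^ K * V F δ ξ 1 ^ (1 + θ) := by
    intro ξ
    have hw := words (f := fun c ℓ => V3 W F c ℓ ^ (1 + θ)) hN0 hG h K ξ 1 one_pos le_rfl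
    have hV3 : 0 ≤ V3 W F ξ 1 := V3_nonneg hW ha1 hF le_rfl
    have hVv : 0 ≤ V F δ ξ 1 := vp_nonneg _ _ _
    have e1 : V3 W F ξ 1 ^ (1 + θ) ≤ 4 * V F δ ξ 1 ^ (1 + θ) := by
      calc V3 W F ξ 1 ^ (1 + θ) ≤ (2 * V F δ ξ 1) ^ (1 + θ) :=
            Real.rpow_le_rpow hV3 (V3_le_V hW ha hF le_rfl) (by linarith)
        _ = 2 ^ (1 + θ) * V F δ ξ 1 ^ (1 + θ) := Real.mul_rpow (by norm_num) hVv
        _ ≤ 4 * V F δ ξ 1 ^ (1 + θ) :=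
            mul_le_mul_of_nonneg_right h2q (Real.rpow_nonneg hVv _)
    have e2 : ∑ d ∈ Finset.range (N ^ K), chK κ c' N K d *
        V F δ (ch (N ^ K) ξ 1 d) (1 / ((N ^ K : ℕ) : ℝ)) ^ (1 + θ) ≤
        4 * ∑ d ∈ Finset.range (N ^ K), chK κ c' N K d *
        V3 W F (ch (N ^ K) ξ 1 d) (1 / ((N ^ K : ℕ) : ℝ)) ^ (1 + θ) := by
      rw [Finset.mul_sum]
      refine Finset.sum_le_sum fun d _ => ?_
      have hv : 0 ≤ V F δ (ch (N ^ K) ξ 1 d) (1 / ((N ^ K : ℕ) : ℝ)) := vp_nonneg _ _ _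
      have hv3 : 0 ≤ V3 W F (ch (N ^ K) ξ 1 d) (1 / ((N ^ K : ℕ) : ℝ)) :=
        V3_nonneg hW ha1 hF hl1
      have e3 : V F δ (ch (N ^ K) ξ 1 d) (1 / ((N ^ K : ℕ) : ℝ)) ^ (1 + θ) ≤
          4 * V3 W F (ch (N ^ K) ξ 1 d) (1 / ((N ^ K : ℕ) : ℝ)) ^ (1 + θ) := by
        calc V F δ (ch (N ^ K) ξ 1 d) (1 / ((N ^ K : ℕ) : ℝ)) ^ (1 + θ)
            ≤ (2 * V3 W F (ch (N ^ K) ξ 1 d) (1 / ((N ^ K : ℕ) : ℝ))) ^ (1 + θ) :=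
              Real.rpow_le_rpow hv (V_le_V3 hW ha hF hl1) (by linarith)
          _ = 2 ^ (1 + θ) * V3 W F (ch (N ^ K) ξ 1 d) (1 / ((N ^ K : ℕ) : ℝ)) ^ (1 + θ) :=
              Real.mul_rpow (by norm_num) hv3
          _ ≤ 4 * V3 W F (ch (N ^ K) ξ 1 d) (1 / ((N ^ K : ℕ) : ℝ)) ^ (1 + θ) :=
              mul_le_mul_of_nonneg_right h2q (Real.rpow_nonneg hv3 _)
      calc chK κ c' N K d * V F δ (ch (N ^ K) ξ 1 d) (1 / ((N ^ K : ℕ) : ℝ)) ^ (1 + θ)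
          ≤ chK κ c' N K d *
            (4 * V3 W F (ch (N ^ K) ξ 1 d) (1 / ((N ^ K : ℕ) : ℝ)) ^ (1 + θ)) :=
            mul_le_mul_of_nonneg_left e3 (chK_nonneg κ c' N K d)
        _ = 4 * (chK κ c' N K d *
            V3 W F (ch (N ^ K) ξ 1 d) (1 / ((N ^ K : ℕ) : ℝ)) ^ (1 + θ)) := by ring
    have e4 : 4 * ∑ d ∈ Finset.range (N ^ K), chK κ c' N K d *
        V3 W F (ch (N ^ K) ξ 1 d) (1 / ((N ^ K : ℕ) : ℝ)) ^ (1 + θ) ≤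
        4 * (G ^ K * (4 * V F δ ξ 1 ^ (1 + θ))) := by
      apply mul_le_mul_of_nonneg_left _ (by norm_num)
      exact hw.trans (mul_le_mul_of_nonneg_left e1 (pow_nonneg hG K))
    calc _ ≤ _ := e2
      _ ≤ _ := e4
      _ = 16 * G ^ K * V F δ ξ 1 ^ (1 + θ) := by ring
  exact hF.avg_core hA h0 h1 (by linarith) (by linarith) hκ hκ1 hc hc1 hN
    (mul_nonneg (by norm_num) (pow_nonneg hG K)) key

end Pool.Agent.Helper90.G3
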