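import Pool.Agent.Helper90.G2.Crude
import Pool.Agent.Helper90.G3.Kids

/-!
# G3-CRUDE: one generation, for an abstract functional

Copy of `G2.Crude`; the same constant `C2`, under `C2 * δ ≤ m₀` and `a * δ ≤ 1 / 100`.
-/

set_option autoImplicit false

namespace Pool.Agent.Helper90.G3

open MeasureTheory Set
open scoped Real
open Pool.Agent.Helper90.G2

variable {F : ℂ → ℂ} {A : ℝ}

/-- the two error terms -/
theorem crude_er0 {δ r S : ℝ} (h0 : 0 < δ) (h1 : δ ≤ 1 / C2) (hr : 0 < r) (hS : 0 ≤ S)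
    (hrS : r ^ 2 ≤ 722500 * S) : 2 * er0 δ (C2 * δ) r ≤ 96 / 100 * (S * r ^ (-δ)) := by
  unfold er0
  have hC : (C2 : ℝ) = 1200000 := rfl
  have hm : 0 < C2 * δ := by rw [hC]; positivity
  have hm1 : C2 * δ ≤ 1 := by
    rw [hC] at h1 ⊢
    linarith
  have e1 : (r / (C2 * δ)) ^ (-δ) ≤ r ^ (-δ) := by
    rw [Real.rpow_neg (div_pos hr hm).le, Real.rpow_neg hr.le]
    apply inv_anti₀ (Real.rpow_pos_of_pos hr δ)
    apply Real.rpow_le_rpow hr.le _ h0.le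
    rw [le_div_iff₀ hm]
    exact mul_le_of_le_one_right hr.le hm1
  have e2 : 2 * (δ * (π * r ^ 2 / (4 * (C2 * δ)))) ≤ 96 / 100 * S := by
    have e3 : 2 * (δ * (π * r ^ 2 / (4 * (C2 * δ)))) = π * r ^ 2 / 2400000 := by
      rw [hC]
      field_simp
      ring
    rw [e3]
    have hpi := Real.pi_lt_d2
    have hpi0 := Real.pi_pos
    have e5 : π * r ^ 2 ≤ 3.15 * (722500 * S) :=
      mul_le_mul hpi.le hrS (by positivity) (by norm_num)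
    rw [div_le_iff₀ (by norm_num)]
    nlinarith
  have e6 : 0 ≤ r ^ (-δ) := (Real.rpow_pos_of_pos hr _).le
  have e7 : 0 ≤ 2 * (δ * (π * r ^ 2 / (4 * (C2 * δ)))) := by
    have := Real.pi_pos
    positivity
  calc 2 * (δ * (π * r ^ 2 / (4 * (C2 * δ))) * (r / (C2 * δ)) ^ (-δ))
      = 2 * (δ * (π * r ^ 2 / (4 * (C2 * δ)))) * (r / (C2 * δ)) ^ (-δ) := by ring
    _ ≤ 2 * (δ * (π * r ^ 2 / (4 * (C2 * δ)))) * r ^ (-δ) :=
        mul_le_mul_of_nonneg_left e1 e7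
    _ ≤ 96 / 100 * S * r ^ (-δ) := mul_le_mul_of_nonneg_right e2 e6
    _ = 96 / 100 * (S * r ^ (-δ)) := by ring

theorem crude3 {δ a c₀ m₀ : ℝ} {W : Set ℂ → ℂ → ℝ} (hW : Pt δ a c₀ m₀ W) (ha : a * δ ≤ 1 / 100)
    (hc0 : 0 ≤ c₀) (hm₀ : C2 * δ ≤ m₀) (hF : Fn F A) {c ℓ : ℝ} (h0 : 0 < δ) (h1 : δ ≤ 1 / C2)
    (hℓ : 0 < ℓ) (hℓ1 : ℓ ≤ 1) :
    V3 W F (c - ℓ / 4) (ℓ / 2) + V3 W F (c + ℓ / 4) (ℓ / 2) ≤
      Real.exp (C2 * δ ^ 2) * V3 W F c ℓ := by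
  have hC : (C2 : ℝ) = 1200000 := rfl
  have hδ : δ ≤ 1 / 1200000 := h1
  have hm : 0 < C2 * δ := by rw [hC]; positivity
  have hδ1 : δ ≤ 1 := by linarith
  have ha1 : a * δ ≤ 1 := by linarith
  set S : ℝ := ar F (Wn c ℓ (1 / (2 : ℕ))) with hS
  have hS0 : 0 < S := hF.ar_pos hℓ hℓ1 (by norm_num) (by norm_num)
  obtain ⟨L, hL⟩ : ∃ L : ℝ, L = Real.log ((2 : ℕ) : ℝ) := ⟨_, rfl⟩
  set r : ℝ := 500 * (1 + Real.log (2 : ℕ)) * √S with hr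
  have hr' : r = 500 * (1 + L) * √S := by rw [hr, hL]
  have hL2 : L = Real.log 2 := by rw [hL]; norm_num
  have hlog1 : 0.69 < L := by
    have := Real.log_two_gt_d9
    linarith
  have hlog2 : L < 0.7 := by
    have := Real.log_two_lt_d9
    linarith
  have hr0 : 0 < r := by
    rw [hr']
    have : 0 < √S := Real.sqrt_pos.2 hS0
    have h2 : 0 < 1 + L := by linarith
    positivity
  have hrS : r ^ 2 ≤ 722500 * S := by
    rw [hr', mul_pow, Real.sq_sqrt hS0.le]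
    apply mul_le_mul_of_nonneg_right _ hS0.le
    nlinarith
  have hadd := kids_add3 hW hF (c := c) hℓ hℓ1 (N := 2) le_rfl
  rw [Finset.sum_range_succ, Finset.sum_range_one] at hadd
  have hloss := loss3 hW ha1 hF (c := c) h0 hδ1 hℓ hℓ1 (N := 2) le_rfl
  have hk0 := kids_move3 hW hF (c := c) hm hm₀ hr0 hℓ hℓ1 (N := 2) (d := 0) le_rfl
    (by norm_num) (hF.kids_rad hℓ hℓ1 le_rfl (by norm_num))
  have hk2 := kids_move3 hW hF (c := c) hm hm₀ hr0 hℓ hℓ1 (N := 2) (d := 1) le_rfl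
    (by norm_num) (hF.kids_rad hℓ hℓ1 le_rfl (by norm_num))
  rw [Crude_ch0] at hk0
  rw [Crude_ch1] at hk2
  have hcast : ℓ / ((2 : ℕ) : ℝ) = ℓ / 2 := by push_cast; ring
  rw [hcast] at hk0 hk2
  have her := crude_er0 h0 h1 hr0 hS0.le hrS
  have her0 : 0 ≤ er0 δ (C2 * δ) r := er0_nonneg h0.le hm.le hr0.le
  have her2 : (1 - c₀) * er0 δ (C2 * δ) r ≤ er0 δ (C2 * δ) r :=
    mul_le_of_le_one_left her0 (by linarith)
  have hexp : 1 ≤ Real.exp (C2 * δ ^ 2) := by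
    apply Real.one_le_exp
    rw [hC]
    positivity
  have hexp2 : Real.exp (δ * (C2 * δ)) = Real.exp (C2 * δ ^ 2) := by
    congr 1
    ring
  rw [hexp2] at hk0 hk2
  have hVw : 0 ≤ Vw3 W F c ℓ 2 := Vw3_nonneg hW ha1 hF hℓ hℓ1 le_rfl
  have hSr : 0 ≤ S * r ^ (-δ) := mul_nonneg hS0.le (Real.rpow_nonneg hr0.le _)
  have h5 : 2 * er0 δ (C2 * δ) r ≤ Vw3 W F c ℓ 2 := by
    refine her.trans (le_trans ?_ hloss)
    apply mul_le_mul_of_nonneg_right _ hSr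
    linarith
  have h6 : Vw3 W F c ℓ 2 ≤ Real.exp (C2 * δ ^ 2) * Vw3 W F c ℓ 2 :=
    le_mul_of_one_le_left hVw hexp
  have h7 : Real.exp (C2 * δ ^ 2) * (Vw3 W F c ℓ 2 + (Vc3 W F c ℓ 2 0 + Vc3 W F c ℓ 2 1)) ≤
      Real.exp (C2 * δ ^ 2) * V3 W F c ℓ := mul_le_mul_of_nonneg_left hadd (Real.exp_pos _).le
  linarith

/-- `M` generations -/
theorem crudeM3 {δ a c₀ m₀ : ℝ} {W : Set ℂ → ℂ → ℝ} (hW : Pt δ a c₀ m₀ W) (ha : a * δ ≤ 1 / 100)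
    (hc0 : 0 ≤ c₀) (hm₀ : C2 * δ ≤ m₀) (hF : Fn F A) (h0 : 0 < δ) (h1 : δ ≤ 1 / C2) (M : ℕ)
    {c ℓ : ℝ} (hℓ : 0 < ℓ) (hℓ1 : ℓ ≤ 1) :
    ∑ d ∈ Finset.range (2 ^ M), V3 W F (ch (2 ^ M) c ℓ d) (ℓ / ((2 ^ M : ℕ) : ℝ)) ≤
      Real.exp (C2 * δ ^ 2 * M) * V3 W F c ℓ := by
  induction M with
  | zero =>
    have e1 : ch (2 ^ 0) c ℓ 0 = c := by
      unfold ch
      push_cast
      ring
    have e2 : ℓ / ((2 ^ 0 : ℕ) : ℝ) = ℓ := by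
      push_cast
      ring
    rw [e2, show (2 : ℕ) ^ 0 = 1 by norm_num, Finset.sum_range_one]
    rw [show (2 : ℕ) ^ 0 = 1 by norm_num] at e1
    rw [e1]
    simp
  | succ M ih =>
    have hM : (1 : ℝ) ≤ ((2 ^ M : ℕ) : ℝ) := by
      exact_mod_cast Nat.one_le_two_pow
    have hM0 : (0 : ℝ) < ((2 ^ M : ℕ) : ℝ) := lt_of_lt_of_le one_pos hM
    have hl0 : 0 < ℓ / ((2 ^ M : ℕ) : ℝ) := div_pos hℓ hM0
    have hl1 : ℓ / ((2 ^ M : ℕ) : ℝ) ≤ 1 := by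
      rw [div_le_one hM0]
      linarith
    have hhalf : ℓ / ((2 ^ (M + 1) : ℕ) : ℝ) = ℓ / ((2 ^ M : ℕ) : ℝ) / 2 := by
      push_cast
      rw [pow_succ]
      field_simp
    have hsum : ∑ d ∈ Finset.range (2 ^ (M + 1)),
        V3 W F (ch (2 ^ (M + 1)) c ℓ d) (ℓ / ((2 ^ (M + 1) : ℕ) : ℝ)) =
        ∑ d ∈ Finset.range (2 ^ M),
          (V3 W F (ch (2 ^ M) c ℓ d - ℓ / ((2 ^ M : ℕ) : ℝ) / 4) (ℓ / ((2 ^ M : ℕ) : ℝ) / 2) +
            V3 W F (ch (2 ^ M) c ℓ d + ℓ / ((2 ^ M : ℕ) : ℝ) / 4)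
              (ℓ / ((2 ^ M : ℕ) : ℝ) / 2)) := by
      rw [hhalf]
      conv_lhs => rw [show Finset.range (2 ^ (M + 1)) = Finset.range (2 * 2 ^ M) by
        rw [pow_succ, mul_comm]]
      rw [Crude_sum]
      refine Finset.sum_congr rfl fun d _ => ?_
      rw [Crude_ch_even, Crude_ch_odd]
    rw [hsum]
    have hstep : ∑ d ∈ Finset.range (2 ^ M),
          (V3 W F (ch (2 ^ M) c ℓ d - ℓ / ((2 ^ M : ℕ) : ℝ) / 4) (ℓ / ((2 ^ M : ℕ) : ℝ) / 2) +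
            V3 W F (ch (2 ^ M) c ℓ d + ℓ / ((2 ^ M : ℕ) : ℝ) / 4)
              (ℓ / ((2 ^ M : ℕ) : ℝ) / 2)) ≤
        ∑ d ∈ Finset.range (2 ^ M), Real.exp (C2 * δ ^ 2) *
          V3 W F (ch (2 ^ M) c ℓ d) (ℓ / ((2 ^ M : ℕ) : ℝ)) :=
      Finset.sum_le_sum fun d _ => crude3 hW ha hc0 hm₀ hF h0 h1 hl0 hl1
    rw [← Finset.mul_sum] at hstep
    refine hstep.trans ?_
    refine (mul_le_mul_of_nonneg_left ih (Real.exp_pos _).le).trans (le_of_eq ?_)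
    rw [← mul_assoc, ← Real.exp_add]
    congr 2
    push_cast
    ring

end Pool.Agent.Helper90.G3
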