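import Pool.Agent.Helper90.G3.Defs
import Pool.Agent.Helper89.G3.Exi

/-!
# G3-EXISTS: the strict functional exists (helper89, helper17, helper33, helper66)

`W Q p = ⨅ ζ, ∫ w in Q, ‖w - p‖ ^ (-δ) * (1 - δ * lam * k ((w - p) / ζ))`, `ζ ≠ 0`, for an explicit
bounded Lipschitz template `k`.
-/

set_option autoImplicit false

namespace Pool.Agent.Helper90.G3

open MeasureTheory Set
open scoped Real

theorem exists_pt : ∃ a c₀ m₀ δ₀ : ℝ, 0 ≤ a ∧ 0 < c₀ ∧ c₀ ≤ 1 / 2 ∧ 0 < m₀ ∧ m₀ ≤ 1 ∧ 0 < δ₀ ∧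
    δ₀ ≤ 1 / 4 ∧ ∀ δ : ℝ, 0 < δ → δ ≤ δ₀ → ∃ W : Set ℂ → ℂ → ℝ, Pt δ a c₀ m₀ W :=
  Pool.Agent.Helper89.G3.exists_pt'

end Pool.Agent.Helper90.G3
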