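import Pool.Agent.Helper90.G2.Window
import Pool.Agent.Helper90.G3.Crude

/-!
# G3-WINDOW: the recursion over a window of `M` generations, for an abstract functional

Copy of `G2.Window`; `m = (1 - c₀) π S² / (4 (1 - ε) (1 - a δ))`.
-/

set_option autoImplicit false

namespace Pool.Agent.Helper90.G3

open MeasureTheory Set
open scoped Real
open Pool.Agent.Helper90.G2

variable {F : ℂ → ℂ} {A : ℝ}

/-- the constant `m / δ` -/
noncomputable def cm3 (M : ℕ) (κ ε c₀ b : ℝ) : ℝ :=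
  (1 - c₀) * π * sS κ (Real.log ((2 ^ M : ℕ) : ℝ)) ^ 2 / (4 * (1 - ε) * (1 - b))

/-- the error of a move in the whole window -/
theorem window3_er1 {δ K R a0 ε N b : ℝ} (h0 : 0 < δ) (hb : b ≤ 1 / 100) (hε : 0 < ε) (hN : 0 < N)
    (hR : 0 < R) (ha : 0 < a0) (hK : K = 9 * π * R ^ 2 * N / (4 * ε)) (hδK : δ * K ≤ 1) :
    er0 δ (δ * K) (R * √a0) ≤ ε / N * ((1 - b) * (a0 * (R * √a0) ^ (-δ))) := by
  have hπ := Real.pi_pos
  have hK0 : 0 < K := by rw [hK]; positivity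
  have hs : √a0 ^ 2 = a0 := Real.sq_sqrt ha.le
  have hs0 : 0 < √a0 := Real.sqrt_pos.2 ha
  have hr : 0 < R * √a0 := mul_pos hR hs0
  have hm : 0 < δ * K := mul_pos h0 hK0
  have e1 : (R * √a0 / (δ * K)) ^ (-δ) ≤ (R * √a0) ^ (-δ) := by
    refine Real.rpow_le_rpow_of_nonpos hr ?_ (by linarith)
    rw [le_div_iff₀ hm]
    nlinarith
  have e2 : δ * (π * (R * √a0) ^ 2 / (4 * (δ * K))) = 1 / 9 * (ε / N * a0) := by
    rw [mul_pow, hs, hK]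
    field_simp
  have hp : 0 ≤ (R * √a0) ^ (-δ) := Real.rpow_nonneg hr.le _
  have hq : 0 ≤ ε / N * a0 := by positivity
  unfold er0
  rw [e2]
  calc 1 / 9 * (ε / N * a0) * (R * √a0 / (δ * K)) ^ (-δ)
      ≤ 1 / 9 * (ε / N * a0) * (R * √a0) ^ (-δ) :=
        mul_le_mul_of_nonneg_left e1 (by positivity)
    _ ≤ (1 - b) * (ε / N * a0) * (R * √a0) ^ (-δ) :=
        mul_le_mul_of_nonneg_right (mul_le_mul_of_nonneg_right (by linarith) hq) hp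
    _ = ε / N * ((1 - b) * (a0 * (R * √a0) ^ (-δ))) := by ring

/-- the error of a sharp move -/
theorem window3_er2 {δ m R a0 ε S b c₀ : ℝ} (h0 : 0 < δ) (hε1 : ε < 1) (hb : b ≤ 1 / 100)
    (hc : c₀ ≤ 1 / 2) (hR : 0 < R) (ha : 0 < a0) (hS : 0 < S)
    (hm : m = (1 - c₀) * π * S ^ 2 / (4 * (1 - ε) * (1 - b))) (h5 : δ * m * R ≤ S) :
    (1 - c₀) * er0 δ (δ * m) (√a0 * S) ≤ (1 - ε) * ((1 - b) * (a0 * (R * √a0) ^ (-δ))) := by
  have hπ := Real.pi_pos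
  have hε' : 0 < 1 - ε := by linarith
  have hb' : 0 < 1 - b := by linarith
  have hc' : 0 < 1 - c₀ := by linarith
  have hm0 : 0 < m := by rw [hm]; positivity
  have hs : √a0 ^ 2 = a0 := Real.sq_sqrt ha.le
  have hs0 : 0 < √a0 := Real.sqrt_pos.2 ha
  have hr : 0 < R * √a0 := mul_pos hR hs0
  have hdm : 0 < δ * m := mul_pos h0 hm0
  have e1 : (√a0 * S / (δ * m)) ^ (-δ) ≤ (R * √a0) ^ (-δ) := by
    refine Real.rpow_le_rpow_of_nonpos hr ?_ (by linarith)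
    rw [le_div_iff₀ hdm]
    nlinarith
  have e2 : (1 - c₀) * (δ * (π * (√a0 * S) ^ 2 / (4 * (δ * m)))) = (1 - ε) * (1 - b) * a0 := by
    rw [mul_pow, hs, hm]
    field_simp
  unfold er0
  calc (1 - c₀) * (δ * (π * (√a0 * S) ^ 2 / (4 * (δ * m))) * (√a0 * S / (δ * m)) ^ (-δ))
      = (1 - c₀) * (δ * (π * (√a0 * S) ^ 2 / (4 * (δ * m)))) * (√a0 * S / (δ * m)) ^ (-δ) := by
        ring
    _ = (1 - ε) * (1 - b) * a0 * (√a0 * S / (δ * m)) ^ (-δ) := by rw [e2]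
    _ ≤ (1 - ε) * (1 - b) * a0 * (R * √a0) ^ (-δ) :=
        mul_le_mul_of_nonneg_left e1 (by positivity)
    _ = (1 - ε) * ((1 - b) * (a0 * (R * √a0) ^ (-δ))) := by ring

variable {δ a c₀ m₀ : ℝ} {W : Set ℂ → ℂ → ℝ}

/-- moving the point in the whole window (for every child) -/
theorem window3_move (hW : Pt δ a c₀ m₀ W) (haδ : a * δ ≤ 1 / 100) (hc0 : 0 ≤ c₀) (hF : Fn F A)
    {ε : ℝ} {N : ℕ} (hN2 : 2 ≤ N) (hε : 0 < ε) {K : ℝ} (h0 : 0 < δ) (h14 : δ ≤ 1 / 4)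
    (hK : K = 9 * π * (500 * (1 + Real.log N)) ^ 2 * N / (4 * ε)) (h2 : δ * K ≤ 1)
    (h2' : δ * K ≤ m₀) {c ℓ : ℝ} (hℓ : 0 < ℓ) (hℓ1 : ℓ ≤ 1) {d : ℕ} (hd : d < N) :
    V3 W F (ch N c ℓ d) (ℓ / N) ≤ (1 + (Real.exp (δ ^ 2 * K) - 1)) * Vc3 W F c ℓ N d +
      ε / N * Vw3 W F c ℓ N := by
  have hNr0 : (0 : ℝ) < N := by
    have : 0 < N := by omega
    exact_mod_cast this
  have hlog : 0 ≤ Real.log N := Real.log_natCast_nonneg N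
  have hR : 0 < 500 * (1 + Real.log N) := by linarith
  obtain ⟨hq, hq1⟩ := one_div_N hN2
  have hpos := hF.ar_pos (c := c) hℓ hℓ1 hq hq1
  have hK0 : 0 < K := by rw [hK]; positivity
  have hr0 : 0 < 500 * (1 + Real.log N) * √(ar F (Wn c ℓ (1 / N))) :=
    mul_pos hR (Real.sqrt_pos.2 hpos)
  have hloss := loss3 hW (by linarith) hF (c := c) h0 (by linarith : δ ≤ 1) hℓ hℓ1 hN2
  have k1 := kids_move3 hW hF (m := δ * K) (s := 500 * (1 + Real.log N) *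
    √(ar F (Wn c ℓ (1 / N)))) (by positivity) h2' hr0 hℓ hℓ1 hN2 hd (hF.kids_rad hℓ hℓ1 hN2 hd)
  have k2 := window3_er1 (N := N) h0 haδ hε hNr0 hR hpos hK h2
  have her0 : 0 ≤ er0 δ (δ * K) (500 * (1 + Real.log N) * √(ar F (Wn c ℓ (1 / N)))) :=
    er0_nonneg h0.le (by positivity) hr0.le
  have her : (1 - c₀) * er0 δ (δ * K) (500 * (1 + Real.log N) * √(ar F (Wn c ℓ (1 / N)))) ≤
      er0 δ (δ * K) (500 * (1 + Real.log N) * √(ar F (Wn c ℓ (1 / N)))) :=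
    mul_le_of_le_one_left her0 (by linarith)
  have k3 : ε / N * ((1 - a * δ) * (ar F (Wn c ℓ (1 / N)) *
      (500 * (1 + Real.log N) * √(ar F (Wn c ℓ (1 / N)))) ^ (-δ))) ≤
      ε / N * Vw3 W F c ℓ N := mul_le_mul_of_nonneg_left hloss (by positivity)
  have e : Real.exp (δ * (δ * K)) = 1 + (Real.exp (δ ^ 2 * K) - 1) := by
    rw [show δ * (δ * K) = δ ^ 2 * K by ring]; ring
  rw [e] at k1
  linarith

/-- moving the point of a central child -/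
theorem window3_sharp (hW : Pt δ a c₀ m₀ W) (haδ : a * δ ≤ 1 / 100) (hc1 : c₀ ≤ 1 / 2)
    (hF : Fn F A) {κ ε : ℝ} {N : ℕ} (hN2 : 2 ≤ N) (hκ : 0 < κ) (hκ1 : κ ≤ 1 / 4)
    (hε1 : ε < 1) (hM : 2 / (N : ℝ) < κ ^ 2) {m : ℝ} (h0 : 0 < δ) (h14 : δ ≤ 1 / 4)
    (hm : m = (1 - c₀) * π * sS κ (Real.log N) ^ 2 / (4 * (1 - ε) * (1 - a * δ)))
    (h4 : δ * m ≤ m₀) (h5 : δ * m * (500 * (1 + Real.log N)) ≤ sS κ (Real.log N))
    {c ℓ : ℝ} (hℓ : 0 < ℓ) (hℓ1 : ℓ ≤ 1) {d : ℕ} (hd : d < N) (hcen : Cen κ N d) :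
    V3 W F (ch N c ℓ d) (ℓ / N) ≤ Real.exp (δ * (δ * m)) * Vc3 W F c ℓ N d +
      (1 - ε) * Vw3 W F c ℓ N := by
  have hπ3 := Real.pi_gt_three
  have hlog : 0 ≤ Real.log N := Real.log_natCast_nonneg N
  have hR : 0 < 500 * (1 + Real.log N) := by linarith
  obtain ⟨hq, hq1⟩ := one_div_N hN2
  have hpos := hF.ar_pos (c := c) hℓ hℓ1 hq hq1
  have hS : 0 < sS κ (Real.log N) := Window_sS hκ hκ1
  have hε' : 0 < 1 - ε := by linarith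
  have hc' : 0 < 1 - c₀ := by linarith
  have hb' : 0 < 1 - a * δ := by linarith
  have hm0 : 0 < m := by rw [hm]; positivity
  have hloss := loss3 hW (by linarith) hF (c := c) h0 (by linarith : δ ≤ 1) hℓ hℓ1 hN2
  have hsh := hF.sharp (c := c) (c' := ch N c ℓ d) hℓ hℓ1 hκ hκ1 hq
    (by rw [mul_one_div]; exact hM) (Window_cen hℓ hcen)
  rw [one_div_one_div, one_div_mul_eq_div] at hsh
  have k1 := kids_move3 hW hF (m := δ * m) (by positivity) h4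
    (mul_pos (Real.sqrt_pos.2 hpos) hS) hℓ hℓ1 hN2 hd hsh
  have k2 := window3_er2 h0 hε1 haδ hc1 hR hpos hS hm h5
  have k3 : (1 - ε) * ((1 - a * δ) * (ar F (Wn c ℓ (1 / N)) *
      (500 * (1 + Real.log N) * √(ar F (Wn c ℓ (1 / N)))) ^ (-δ))) ≤
      (1 - ε) * Vw3 W F c ℓ N := mul_le_mul_of_nonneg_left hloss hε'.le
  linarith

/-- the window inequality with the constants as parameters -/
theorem window3_aux (hW : Pt δ a c₀ m₀ W) (haδ : a * δ ≤ 1 / 100) (hc0 : 0 ≤ c₀)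
    (hc1 : c₀ ≤ 1 / 2) (hF : Fn F A) {κ ε : ℝ} {N : ℕ} (hN2 : 2 ≤ N) (hκ : 0 < κ) (hκ1 : κ ≤ 1 / 4)
    (hε : 0 < ε) (hε1 : ε ≤ 1 / 2) (hM : 2 / (N : ℝ) < κ ^ 2) {K m c' θ : ℝ} (h0 : 0 < δ)
    (h14 : δ ≤ 1 / 4) (hK : K = 9 * π * (500 * (1 + Real.log N)) ^ 2 * N / (4 * ε))
    (hm : m = (1 - c₀) * π * sS κ (Real.log N) ^ 2 / (4 * (1 - ε) * (1 - a * δ)))
    (h2 : δ * K ≤ 1) (h2' : δ * K ≤ m₀) (h3 : 4 * δ ^ 2 * K ^ 2 ≤ ε) (h4 : δ * m ≤ m₀)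
    (h5 : δ * m * (500 * (1 + Real.log N)) ≤ sS κ (Real.log N)) (hc' : 0 ≤ c')
    (hθ : 2 * c' * K / ε ≤ θ) {c ℓ : ℝ} (hℓ : 0 < ℓ) (hℓ1 : ℓ ≤ 1)
    (hcr : ∑ d ∈ Finset.range N, V3 W F (ch N c ℓ d) (ℓ / N) ≤ Real.exp c' * V3 W F c ℓ) :
    ∑ d ∈ Finset.range N, chi κ c' N d * V3 W F (ch N c ℓ d) (ℓ / N) ^ (1 + θ) ≤
      Real.exp (c' * θ + δ ^ 2 * m + 2 * δ ^ 2 * ε + 3 * ε * c') * V3 W F c ℓ ^ (1 + θ) := by
  have hπ3 := Real.pi_gt_three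
  have hNr : (2 : ℝ) ≤ N := by exact_mod_cast hN2
  have hNr0 : (0 : ℝ) < N := by linarith
  have hlog : 0 ≤ Real.log N := Real.log_natCast_nonneg N
  have hR1 : (1 : ℝ) ≤ 500 * (1 + Real.log N) := by linarith
  have hR : 0 < 500 * (1 + Real.log N) := by linarith
  have hS : 0 < sS κ (Real.log N) := Window_sS hκ hκ1
  have hε' : 0 < 1 - ε := by linarith
  have hK1 : 1 ≤ K := by
    rw [hK, le_div_iff₀ (by positivity)]
    have a1 : (1:ℝ) ≤ (500 * (1 + Real.log N)) ^ 2 := one_le_pow₀ hR1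
    have a2 : (1:ℝ) ≤ (500 * (1 + Real.log N)) ^ 2 * N :=
      one_le_mul_of_one_le_of_one_le a1 (by linarith)
    nlinarith
  have hK0 : 0 < K := by linarith
  have hm0 : 0 < m := by
    have hb' : 0 < 1 - a * δ := by linarith
    have hc1' : 0 < 1 - c₀ := by linarith
    rw [hm]; positivity
  -- smallness of `δ² K`
  have hx0 : 0 ≤ δ ^ 2 * K := by positivity
  have hx1 : δ ^ 2 * K ≤ ε / (4 * K) := by
    rw [le_div_iff₀ (by positivity)]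
    calc δ ^ 2 * K * (4 * K) = 4 * δ ^ 2 * K ^ 2 := by ring
      _ ≤ ε := h3
  have hη1 : ε / K ≤ ε := div_le_self hε.le hK1
  have hη0 : 0 ≤ ε / K := by positivity
  have hx2 : δ ^ 2 * K ≤ 1 / 8 := by
    have e : ε / (4 * K) = ε / K / 4 := by field_simp
    rw [e] at hx1
    linarith
  have ha0 : 0 ≤ Real.exp (δ ^ 2 * K) - 1 := by
    have := Real.add_one_le_exp (δ ^ 2 * K)
    linarith
  have ha2 : Real.exp (δ ^ 2 * K) - 1 ≤ 2 * (δ ^ 2 * K) := by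
    have hb := Real.exp_bound_div_one_sub_of_interval hx0 (by linarith : δ ^ 2 * K < 1)
    have hc : 1 / (1 - δ ^ 2 * K) ≤ 1 + 2 * (δ ^ 2 * K) := by
      rw [div_le_iff₀ (by linarith)]
      nlinarith
    linarith
  have haη : Real.exp (δ ^ 2 * K) - 1 ≤ ε / K / 2 := by
    have e : ε / K / 2 = 2 * (ε / (4 * K)) := by field_simp; norm_num
    rw [e]
    linarith
  have hθ0 : 0 ≤ θ := le_trans (by positivity) hθ
  have hcθ : c' ≤ θ * (ε / K / 2) := by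
    have e : c' = 2 * c' * K / ε * (ε / K / 2) := by field_simp
    calc c' = 2 * c' * K / ε * (ε / K / 2) := e
      _ ≤ θ * (ε / K / 2) := mul_le_mul_of_nonneg_right hθ (by positivity)
  have ha1 : a * δ ≤ 1 := by linarith
  have hb' : 0 < 1 - a * δ := by linarith
  have hc1' : 0 < 1 - c₀ := by linarith
  have hw : 0 ≤ Vw3 W F c ℓ N := Vw3_nonneg hW ha1 hF hℓ hℓ1 hN2
  have hrec := rec_real (κ := κ) (g := Real.exp (δ * (δ * m))) (c := c') (ε := ε) (η := ε / K)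
    (θ := θ) (a := Real.exp (δ ^ 2 * K) - 1) (w := Vw3 W F c ℓ N) (v := V3 W F c ℓ)
    (by omega : 0 < N) (fun d => Vc3 W F c ℓ N d)
    (fun d => V3 W F (ch N c ℓ d) (ℓ / N)) hw ha0 (by linarith) haη
    (Real.one_le_exp (by positivity)) hc' hε.le (by linarith) hη0 (by linarith) hθ0 hcθ
    (fun d _ => V3_nonneg hW ha1 hF ((div_N_le hℓ hN2).trans hℓ1))
    (fun d hd => Vc3_nonneg hW ha1 hF hℓ hℓ1 hN2 hd)
    (kids_add3 hW hF hℓ hℓ1 hN2) ?_ ?_ hcr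
  · refine hrec.trans ?_
    have hv : 0 ≤ V3 W F c ℓ ^ (1 + θ) := Real.rpow_nonneg (V3_nonneg hW ha1 hF hℓ1) _
    refine mul_le_mul_of_nonneg_right ?_ hv
    have hg1 : 1 ≤ Real.exp (δ * (δ * m)) := Real.one_le_exp (by positivity)
    have b1 : (Real.exp (δ ^ 2 * K) - 1) * (ε / K) ≤ 2 * δ ^ 2 * ε := by
      calc (Real.exp (δ ^ 2 * K) - 1) * (ε / K) ≤ 2 * (δ ^ 2 * K) * (ε / K) :=
            mul_le_mul_of_nonneg_right ha2 hη0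
        _ = 2 * δ ^ 2 * ε := by field_simp
    have b2 : c' * (2 * (ε / K) + ε) ≤ 3 * ε * c' := by nlinarith
    have b3 : 0 ≤ 2 * δ ^ 2 * ε + 3 * ε * c' := by positivity
    have b4 : Real.exp (δ * (δ * m)) + (Real.exp (δ ^ 2 * K) - 1) * (ε / K) +
        c' * (2 * (ε / K) + ε) ≤
        Real.exp (δ * (δ * m)) * Real.exp (2 * δ ^ 2 * ε + 3 * ε * c') := by
      have b5 := Real.add_one_le_exp (2 * δ ^ 2 * ε + 3 * ε * c')
      nlinarith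
    calc Real.exp (c' * θ) * (Real.exp (δ * (δ * m)) +
          (Real.exp (δ ^ 2 * K) - 1) * (ε / K) + c' * (2 * (ε / K) + ε))
        ≤ Real.exp (c' * θ) *
          (Real.exp (δ * (δ * m)) * Real.exp (2 * δ ^ 2 * ε + 3 * ε * c')) :=
          mul_le_mul_of_nonneg_left b4 (Real.exp_pos _).le
      _ = Real.exp (c' * θ + δ ^ 2 * m + 2 * δ ^ 2 * ε + 3 * ε * c') := by
          rw [← Real.exp_add, ← Real.exp_add]
          congr 1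
          ring
  · intro d hd
    exact window3_move hW haδ hc0 hF hN2 hε h0 h14 hK h2 h2' hℓ hℓ1 hd
  · intro d hd hcen
    exact window3_sharp hW haδ hc1 hF hN2 hκ hκ1 (by linarith) hM h0 h14 hm h4 h5 hℓ hℓ1 hd hcen

theorem window3 (hW : Pt δ a c₀ m₀ W) (haδ : a * δ ≤ 1 / 100) (hc0 : 0 ≤ c₀) (hc1 : c₀ ≤ 1 / 2)
    (hm₀ : C2 * δ ≤ m₀) (hF : Fn F A) {κ ε : ℝ} {M : ℕ} (hκ : 0 < κ) (hκ1 : κ ≤ 1 / 4)
    (hε : 0 < ε) (hε1 : ε ≤ 1 / 2) (hM : 2 / ((2 ^ M : ℕ) : ℝ) < κ ^ 2) (h0 : 0 < δ)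
    (h1 : δ ≤ 1 / C2) (h2 : δ * cK M ε ≤ 1) (h2' : δ * cK M ε ≤ m₀)
    (h3 : 4 * δ ^ 2 * cK M ε ^ 2 ≤ ε) (h4 : δ * cm3 M κ ε c₀ (a * δ) ≤ m₀)
    (h5 : δ * cm3 M κ ε c₀ (a * δ) * (500 * (1 + Real.log ((2 ^ M : ℕ) : ℝ))) ≤
      sS κ (Real.log ((2 ^ M : ℕ) : ℝ)))
    {θ : ℝ} (hθ : 2 * C2 * M * cK M ε / ε * δ ^ 2 ≤ θ) {c ℓ : ℝ} (hℓ : 0 < ℓ) (hℓ1 : ℓ ≤ 1) :
    ∑ d ∈ Finset.range (2 ^ M), chi κ (C2 * δ ^ 2 * M) (2 ^ M) d *
        V3 W F (ch (2 ^ M) c ℓ d) (ℓ / ((2 ^ M : ℕ) : ℝ)) ^ (1 + θ) ≤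
      Real.exp (C2 * δ ^ 2 * M * θ + δ ^ 2 * cm3 M κ ε c₀ (a * δ) + 2 * δ ^ 2 * ε +
        3 * ε * (C2 * δ ^ 2 * M)) * V3 W F c ℓ ^ (1 + θ) := by
  have hC2 : (0:ℝ) < C2 := by unfold C2; norm_num
  have h14 : δ ≤ 1 / 4 := by
    refine h1.trans ?_
    unfold C2
    norm_num
  have hN2 : 2 ≤ 2 ^ M := by
    rcases Nat.eq_zero_or_pos M with h | h
    · subst h
      exfalso
      norm_num at hM
      nlinarith
    · calc 2 = 2 ^ 1 := by norm_num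
        _ ≤ 2 ^ M := Nat.pow_le_pow_right (by norm_num) h
  refine window3_aux (K := cK M ε) (m := cm3 M κ ε c₀ (a * δ)) hW haδ hc0 hc1 hF hN2 hκ hκ1 hε hε1
    hM h0 h14 rfl rfl h2 h2' h3 h4 h5 (by positivity) ?_ hℓ hℓ1
    (crudeM3 hW haδ hc0 hm₀ hF h0 h1 M hℓ hℓ1)
  refine le_trans (le_of_eq ?_) hθ
  ring

end Pool.Agent.Helper90.G3
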