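import Pool.Agent.Helper90.G2.Param
import Pool.Agent.Helper90.G3.Window

/-!
# G3-PARAM: choice of the parameters, for an abstract functional

As `G2.Param`. `L = log (2^M) = M log 2`. As `M → ∞`, `sS κ L² / L → 1 / (π - 2 κ)`, so
`cm3 M κ ε' c₀ b / L → (1 - c₀) π / (4 (π - 2 κ) (1 - ε') (1 - b))`, and `b = a δ` is small. The
choice of `κ`, `ε'`, `M` is that of `G2.Param`, `δ₀` depends also on `a`, `m₀`. With `θ ≤ δ` the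
exponent of `window3` is at most `((1 - c₀) / 4 + ε) δ² log (2^M)`.
-/

set_option autoImplicit false

namespace Pool.Agent.Helper90.G3

open MeasureTheory Set
open scoped Real
open Pool.Agent.Helper90.G2

/-- the constant `cm3` -/
theorem Param3_cm {e ε' b c₀ κ : ℝ} {M : ℕ} (he : 0 < e) (he1 : e ≤ 1) (hε' : 0 < ε')
    (hε1 : ε' ≤ e / 8) (hb : b ≤ e / 16) (hc1 : c₀ ≤ 1 / 2)
    (hL : 0 < Real.log ((2 ^ M : ℕ) : ℝ))
    (hS : π * sS κ (Real.log ((2 ^ M : ℕ) : ℝ)) ^ 2 ≤ (1 + e / 2) * Real.log ((2 ^ M : ℕ) : ℝ)) :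
    0 ≤ cm3 M κ ε' c₀ b ∧
      cm3 M κ ε' c₀ b ≤ (1 - c₀) / 4 * (1 + 2 * e) * Real.log ((2 ^ M : ℕ) : ℝ) := by
  unfold cm3
  generalize Real.log ((2 ^ M : ℕ) : ℝ) = L at *
  have hX0 : 0 ≤ π * sS κ L ^ 2 := mul_nonneg Real.pi_pos.le (sq_nonneg _)
  have h1 : (1 - c₀) * π * sS κ L ^ 2 = (1 - c₀) * (π * sS κ L ^ 2) := by ring
  rw [h1]
  generalize π * sS κ L ^ 2 = X at *
  have h2 : 0 < 1 - ε' := by linarith
  have h3 : 0 < 1 - b := by linarith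
  have h4 : 0 < 1 - c₀ := by linarith
  refine ⟨by positivity, ?_⟩
  rw [div_le_iff₀ (by positivity)]
  have h5 : 1 - 3 * e / 16 ≤ (1 - ε') * (1 - b) := by
    have h6 : (1 - e / 8) * (1 - e / 16) ≤ (1 - ε') * (1 - b) :=
      mul_le_mul (by linarith) (by linarith) (by linarith) h2.le
    nlinarith
  have h6 : 1 + e / 2 ≤ (1 + 2 * e) * ((1 - ε') * (1 - b)) := by
    have h7 : (1 + 2 * e) * (1 - 3 * e / 16) ≤ (1 + 2 * e) * ((1 - ε') * (1 - b)) :=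
      mul_le_mul_of_nonneg_left h5 (by linarith)
    nlinarith
  calc (1 - c₀) * X ≤ (1 - c₀) * ((1 + 2 * e) * ((1 - ε') * (1 - b)) * L) :=
        mul_le_mul_of_nonneg_left (hS.trans (mul_le_mul_of_nonneg_right h6 hL.le)) h4.le
    _ = (1 - c₀) / 4 * (1 + 2 * e) * L * (4 * (1 - ε') * (1 - b)) := by ring

theorem window3_ex {a c₀ m₀ : ℝ} (ha : 0 ≤ a) (hc0 : 0 ≤ c₀) (hc1 : c₀ ≤ 1 / 2) (hm₀ : 0 < m₀)
    {ε : ℝ} (hε : 0 < ε) :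
    ∃ κ : ℝ, 0 < κ ∧ κ ≤ 1 / 4 ∧ 6 * κ * (C2 / Real.log 2) ≤ ε ∧ ∃ M : ℕ, 1 ≤ M ∧
      2 ≤ κ * ((2 ^ M : ℕ) : ℝ) ∧ ∃ Cθ δ₀ : ℝ, 0 ≤ Cθ ∧ 0 < δ₀ ∧ δ₀ ≤ 1 / 4 ∧ a * δ₀ ≤ 1 / 100 ∧
      ∀ δ : ℝ, 0 < δ → δ < δ₀ → ∀ θ : ℝ, Cθ * δ ^ 2 ≤ θ → θ ≤ δ →
        ∀ W : Set ℂ → ℂ → ℝ, Pt δ a c₀ m₀ W →
        ∀ (F : ℂ → ℂ) (A : ℝ), Fn F A → ∀ c ℓ : ℝ, 0 < ℓ → ℓ ≤ 1 →
        ∑ d ∈ Finset.range (2 ^ M), chi κ (C2 * δ ^ 2 * M) (2 ^ M) d *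
            V3 W F (ch (2 ^ M) c ℓ d) (ℓ / ((2 ^ M : ℕ) : ℝ)) ^ (1 + θ) ≤
          ((2 ^ M : ℕ) : ℝ) ^ (((1 - c₀) / 4 + ε) * δ ^ 2) * V3 W F c ℓ ^ (1 + θ) := by
  obtain ⟨hl0, hl1⟩ := Param_log2
  have hC := Param_C2
  have he : 0 < min ε 1 := lt_min hε one_pos
  have he1 : min ε 1 ≤ 1 := min_le_right _ _
  have hee : min ε 1 ≤ ε := min_le_left _ _
  generalize min ε 1 = e at *
  obtain ⟨κ, hκ, hκ1, hκ2, L₀, hL₀⟩ := Param_kap he he1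
  obtain ⟨M, hM1, hM2, hM3, hM4⟩ := Param_M hκ hκ1 L₀
  have hLM := Param_log M
  have hMr : (1 : ℝ) ≤ M := by exact_mod_cast hM1
  have hLpos : 0 < Real.log ((2 ^ M : ℕ) : ℝ) := by rw [hLM]; positivity
  have hN0 : (0 : ℝ) < ((2 ^ M : ℕ) : ℝ) := by positivity
  have hsS := hL₀ _ hLpos hM4
  obtain ⟨ε', hε'⟩ : ∃ ε' : ℝ, ε' = e * Real.log 2 / (24 * C2) := ⟨_, rfl⟩
  have hε0 : 0 < ε' := by rw [hε', hC]; positivity
  have hε8 : ε' ≤ e / 8 := by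
    rw [hε', hC, div_le_div_iff₀ (by norm_num) (by norm_num)]
    nlinarith
  have hK := Param_cK M hε0
  have hsp : 0 < sS κ (Real.log ((2 ^ M : ℕ) : ℝ)) := Window_sS hκ hκ1
  obtain ⟨K, hKd⟩ : ∃ K : ℝ, K = cK M ε' := ⟨_, rfl⟩
  obtain ⟨L, hLd⟩ : ∃ L : ℝ, L = Real.log ((2 ^ M : ℕ) : ℝ) := ⟨_, rfl⟩
  obtain ⟨δ₁, hδ₁, hδ₁'⟩ := Param_ex (((((Param_small (X := C2) one_pos).and
    (Param_small (X := C2) hm₀)).and ((Param_small (X := K) one_pos).and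
    (Param_small (X := K) hm₀))).and (((Param_small (X := 4 * K) hε0).and
    (Param_small (X := L) hm₀)).and ((Param_small (X := L * (500 * (1 + L))) hsp).and
    (Param_small (X := 8 * C2) (mul_pos he hl0))))).and (Param_small (X := a)
      (show (0 : ℝ) < e / 16 by linarith)))
  rw [← hKd] at hK
  have ha1 : 0 < 100 * (a + 1) := by linarith
  refine ⟨κ, hκ, hκ1, hκ2.trans hee, M, hM1, hM2, 2 * C2 * M * K / ε',
    min δ₁ (min (1 / 4) (1 / (100 * (a + 1)))), ?_,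
    lt_min hδ₁ (lt_min (by norm_num) (one_div_pos.2 ha1)),
    (min_le_right _ _).trans (min_le_left _ _), ?_, ?_⟩
  · rw [hC]
    positivity
  · have h1 : min δ₁ (min (1 / 4) (1 / (100 * (a + 1)))) ≤ 1 / (100 * (a + 1)) :=
      (min_le_right _ _).trans (min_le_right _ _)
    rw [le_div_iff₀ ha1] at h1
    have h2 : 0 < min δ₁ (min (1 / 4) (1 / (100 * (a + 1)))) :=
      lt_min hδ₁ (lt_min (by norm_num) (one_div_pos.2 ha1))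
    linarith
  intro δ h0 hδ θ hθ hθδ W hW F A hF c ℓ hℓ hℓ1
  obtain ⟨⟨⟨⟨c1, c2⟩, c3, c4⟩, ⟨c5, c6⟩, c7, c8⟩, c9⟩ :=
    hδ₁' δ h0 (hδ.trans_le (min_le_left _ _))
  have haδ : a * δ ≤ 1 / 100 := by
    have h1 := hδ.trans_le ((min_le_right _ _).trans (min_le_right _ _))
    rw [lt_div_iff₀ ha1] at h1
    linarith
  obtain ⟨hm0, hmE⟩ := Param3_cm (b := a * δ) (κ := κ) he he1 hε0 hε8
    (by rw [mul_comm]; exact c9) hc1 hLpos hsS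
  rw [← hLd] at hmE
  have hL0 : 0 < L := by rw [hLd]; exact hLpos
  have hm1 : cm3 M κ ε' c₀ (a * δ) ≤ L := by
    refine hmE.trans ?_
    have h1 : (1 - c₀) / 4 * (1 + 2 * e) ≤ 1 := by nlinarith
    calc (1 - c₀) / 4 * (1 + 2 * e) * L ≤ 1 * L := mul_le_mul_of_nonneg_right h1 hL0.le
      _ = L := one_mul L
  have k1 : δ ≤ 1 / C2 := by
    rw [le_div_iff₀ (by rw [hC]; norm_num)]
    exact c1
  have k3 : 4 * δ ^ 2 * cK M ε' ^ 2 ≤ ε' := by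
    rw [← hKd]
    calc 4 * δ ^ 2 * K ^ 2 = δ * (4 * K) * (δ * K) := by ring
      _ ≤ ε' * 1 := mul_le_mul c5 c3 (mul_nonneg h0.le hK) hε0.le
      _ = ε' := mul_one _
  have k5 : δ * cm3 M κ ε' c₀ (a * δ) * (500 * (1 + Real.log ((2 ^ M : ℕ) : ℝ))) ≤
      sS κ (Real.log ((2 ^ M : ℕ) : ℝ)) := by
    refine le_trans ?_ c7
    rw [← hLd, mul_assoc]
    exact mul_le_mul_of_nonneg_left (mul_le_mul_of_nonneg_right hm1 (by positivity)) h0.le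
  have hw := window3 (θ := θ) (c := c) hW haδ hc0 hc1 (by rw [mul_comm]; exact c2) hF hκ hκ1 hε0
    (by linarith) hM3 h0 k1 (by rw [← hKd]; exact c3) (by rw [← hKd]; exact c4) k3
    ((mul_le_mul_of_nonneg_left hm1 h0.le).trans c6) k5 (by rw [← hKd]; exact hθ) hℓ hℓ1
  refine hw.trans ?_
  have hV : 0 ≤ V3 W F c ℓ ^ (1 + θ) :=
    Real.rpow_nonneg (V3_nonneg hW (by linarith) hF hℓ1) _
  refine mul_le_mul_of_nonneg_right ?_ hV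
  rw [Real.rpow_def_of_pos hN0, ← hLd]
  refine Real.exp_le_exp.2 ?_
  have hE := Param_exp (e := e) (ε' := ε') (δ := δ) (θ := θ) (L := L) (b := (1 - c₀) / 4) he hM1
    hε' (by rw [hLd, hLM]) hθδ c8 rfl hmE (by linarith)
  refine hE.trans ?_
  have h5 : 0 ≤ δ ^ 2 * L := by positivity
  have h6 : e * (δ ^ 2 * L) ≤ ε * (δ ^ 2 * L) := mul_le_mul_of_nonneg_right hee h5
  calc ((1 - c₀) / 4 + e) * δ ^ 2 * L = (1 - c₀) / 4 * (δ ^ 2 * L) + e * (δ ^ 2 * L) := by ring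
    _ ≤ (1 - c₀) / 4 * (δ ^ 2 * L) + ε * (δ ^ 2 * L) := by linarith
    _ = L * (((1 - c₀) / 4 + ε) * δ ^ 2) := by ring

end Pool.Agent.Helper90.G3
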