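import Pool.Agent.Helper90.G2.Main
import Pool.Agent.Helper90.G3.Heights

/-!
# G3-MAIN: the theorem

`main_core` of `G2.Main` with `heights3`.
-/

set_option autoImplicit false

namespace Pool.Agent.Helper90.G3

open MeasureTheory Set
open scoped Real
open Pool.Agent.Helper90.G2

theorem main3 : ∃ c : ℝ, 0 < c ∧ ∃ δ₀ : ℝ, 0 < δ₀ ∧ ∀ δ : ℝ, 0 < δ → δ < δ₀ → ∃ C : ℝ,
    ∀ ψ : ℂ → ℂ, DifferentiableOn ℂ ψ {z : ℂ | 1 < ‖z‖} → Set.InjOn ψ {z : ℂ | 1 < ‖z‖} →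
    (∃ b : ℂ, Filter.Tendsto (fun z => ψ z - z) (Bornology.cobounded ℂ) (nhds b)) →
    ∀ R : ℝ, 1 < R →
      (1 / (2 * π)) * ∫ θ in (0:ℝ)..(2 * π),
        ‖deriv ψ ((R : ℂ) * Complex.exp ((θ : ℂ) * Complex.I))‖ ^ (2 - δ) ≤
      C * (R ^ 2 / (R ^ 2 - 1)) ^ (1 - δ + (1 / 4 - c) * δ ^ 2) := by
  obtain ⟨c, hc, hc1, δ₀, hδ₀, hδ₁, h⟩ := heights3
  refine ⟨c, hc, δ₀, hδ₀, ?_⟩
  intro δ hδ hδ'
  have hβ0 : 0 ≤ 1 - δ + (1 / 4 - c) * δ ^ 2 := by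
    have : 0 ≤ (1 / 4 - c) * δ ^ 2 := mul_nonneg (by linarith) (sq_nonneg δ)
    linarith
  exact main_core (by linarith) hβ0 (h δ hδ hδ')

end Pool.Agent.Helper90.G3
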